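import Pool.Agent.Helper27.Final

set_option autoImplicit false

namespace Pool.Agent.Results.MP_f7abf1_nt.TypicalPowerSaving

/-- For every `c < ((1/2) log (4/3))⁻¹` there is `δ > 0` such that for all large `x` at most
`x ^ (1 - δ)` of the integers `1 ≤ n ≤ x` reach `1` within `c log n` steps of the `3x+1` map. -/
theorem result (c : ℝ) (hc : c < ((1 / 2) * Real.log (4 / 3))⁻¹) :
    ∃ δ : ℝ, 0 < δ ∧ ∀ᶠ x : ℕ in Filter.atTop,
      ({n : ℕ | 1 ≤ n ∧ n ≤ x ∧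
        ∃ k : ℕ, (fun m : ℕ => if m % 2 = 0 then m / 2 else (3 * m + 1) / 2)^[k] n = 1 ∧
          (k : ℝ) ≤ c * Real.log (n : ℝ)}.ncard : ℝ) ≤ (x : ℝ) ^ (1 - δ) :=
  Pool.Agent.Helper27.typical_main c hc

end Pool.Agent.Results.MP_f7abf1_nt.TypicalPowerSaving
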